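import Pool.Agent.H87.D3.Targets

/-!
Row BTM of the board d3h_modules: the beta numbers are measurable.
-/

set_option autoImplicit false

open MeasureTheory Metric Set Filter Topology Pool.Agent.H87.SN Pool.Agent.H87.SH Pool.Agent.H87.AX
open scoped ContDiff RealInnerProductSpace ENNReal

namespace Pool.Agent.H34.D3

open Pool.Agent.H87.D3

theorem bt_cont {μ : Measure V} (hfin : μ univ ≠ ⊤)
    (hac : μ ≪ volume.restrict (ball (0 : V) 2)) {f : V → ℝ≥0∞} (hf : Measurable f) {C : ℝ≥0∞}
    (hC : C ≠ ⊤) (hfC : ∀ y ∈ ball (0 : V) 2, f y ≤ C) (r : ℝ) :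
    Continuous fun x => ∫⁻ y in ball x r, f y ∂μ := by
  rw [continuous_iff_continuousAt]
  intro x
  have h1 : ∀ x', ∫⁻ y in ball x' r, f y ∂μ = ∫⁻ y, (ball x' r).indicator f y ∂μ := fun x' =>
    (lintegral_indicator measurableSet_ball f).symm
  unfold ContinuousAt
  simp only [h1]
  refine tendsto_lintegral_filter_of_dominated_convergence f
    (Eventually.of_forall fun x' => hf.indicator measurableSet_ball)
    (Eventually.of_forall fun x' => Eventually.of_forall fun y => indicator_le_self _ _ _) ?_ ?_
  · have h2 : ∀ᵐ y ∂μ, f y ≤ C := by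
      filter_upwards [hac.ae_le (ae_restrict_mem measurableSet_ball)] with y hy
      exact hfC y hy
    have h3 : ∫⁻ y, f y ∂μ ≤ C * μ univ := by
      calc ∫⁻ y, f y ∂μ ≤ ∫⁻ _, C ∂μ := lintegral_mono_ae h2
        _ = C * μ univ := lintegral_const C
    exact ne_top_of_le_ne_top (ENNReal.mul_ne_top hC hfin) h3
  · have h4 : ∀ᵐ y ∂μ, y ∉ sphere x r := by
      have h5 : (volume : Measure V) (sphere x r) = 0 := Measure.addHaar_sphere volume x r
      have h6 : μ (sphere x r) = 0 := by
        refine hac ?_
        exact le_antisymm ((Measure.restrict_apply_le _ _).trans h5.le) zero_le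
      exact measure_eq_zero_iff_ae_notMem.mp h6
    filter_upwards [h4] with y hy
    rw [mem_sphere] at hy
    refine tendsto_const_nhds.congr' ?_
    rcases lt_or_gt_of_ne hy with h | h
    · have h7 : ∀ᶠ x' in 𝓝 x, dist y x' < r :=
        (continuous_const.dist continuous_id).continuousAt.eventually_lt continuousAt_const h
      filter_upwards [h7] with x' hx'
      rw [indicator_of_mem (mem_ball.mpr h), indicator_of_mem (mem_ball.mpr hx')]
    · have h7 : ∀ᶠ x' in 𝓝 x, r < dist y x' :=
        continuousAt_const.eventually_lt (continuous_const.dist continuous_id).continuousAt h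
      filter_upwards [h7] with x' hx'
      rw [indicator_of_notMem (fun h8 => absurd (mem_ball.mp h8) (not_lt.mpr h.le)),
        indicator_of_notMem (fun h8 => absurd (mem_ball.mp h8) (not_lt.mpr hx'.le))]

theorem pf_BTM (hMUF : T_MUF) : T_BTM := by
  intro m G hG t ht
  obtain ⟨hfin, hac, -⟩ := hMUF m G hG
  have h : UpperSemicontinuous (fun x => bt G x t) := by
    unfold bt
    refine upperSemicontinuous_iInf fun a => upperSemicontinuous_iInf fun T =>
      upperSemicontinuous_iInf fun hT => ?_
    have hm : Measurable fun y : V => ENNReal.ofReal (dl a T y) := by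
      refine ENNReal.measurable_ofReal.comp ?_
      unfold dl
      exact Continuous.measurable (by fun_prop)
    have h2 : Continuous fun x : V => ∫⁻ y in ball x (8 * t), ENNReal.ofReal (dl a T y) ∂(mu G) := by
      refine bt_cont hfin hac hm (C := ENNReal.ofReal ((2 + ‖a‖) ^ 2)) ENNReal.ofReal_ne_top ?_ _
      intro y hy
      refine ENNReal.ofReal_le_ofReal ?_
      unfold dl
      have h3 : ‖y - a‖ ≤ 2 + ‖a‖ := by
        refine (norm_sub_le _ _).trans ?_
        have := mem_ball_zero_iff.mp hy
        linarith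
      have h4 : ‖y - a‖ ^ 2 ≤ (2 + ‖a‖) ^ 2 := pow_le_pow_left₀ (norm_nonneg _) h3 2
      have h5 : 0 ≤ ⟪y - a, T⟫ ^ 2 := sq_nonneg _
      linarith
    exact ((ENNReal.continuous_const_mul ENNReal.ofReal_ne_top).comp h2).upperSemicontinuous
  exact h.measurable

end Pool.Agent.H34.D3
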