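import Pool.Agent.H87.D3.Targets

/-!
Row VOL of the board d3h_modules: the volume of the set of points of large density.
-/

set_option autoImplicit false

open MeasureTheory Metric Set Filter Topology Pool.Agent.H87.SN Pool.Agent.H87.SH Pool.Agent.H87.AX
open scoped ContDiff RealInnerProductSpace ENNReal

namespace Pool.Agent.H34.D3

open Pool.Agent.H87.D3

theorem vol_ball3 (x : EuclideanSpace ℝ (Fin 3)) {s : ℝ} (hs : 0 < s) :
    volume (ball x s) ≤ ENNReal.ofReal (8 * s ^ 3) := by
  rw [EuclideanSpace.volume_ball_fin_three, ← ENNReal.ofReal_pow hs.le,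
    ← ENNReal.ofReal_mul (by positivity)]
  refine ENNReal.ofReal_le_ofReal ?_
  have h1 : Real.pi * 4 / 3 ≤ 8 := by
    have := Real.pi_lt_four
    linarith
  have h2 : 0 ≤ s ^ 3 := by positivity
  nlinarith

theorem vol_ball (x : V) {s : ℝ} (hs : 0 < s) : volume (ball x s) ≤ ENNReal.ofReal (8 * s ^ 3) :=
  vol_ball3 x hs

theorem pf_VOL (hMUF : T_MUF) : T_VOL := by
  intro m G hG e M c r s he hs hr hM
  obtain ⟨hfin, hac, -, -, -, hcont⟩ := hMUF m G hG
  have : IsFiniteMeasure (mu G) := ⟨lt_top_iff_ne_top.mpr hfin⟩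
  obtain ⟨S, hS⟩ : ∃ S, S = {x | x ∈ ball c r ∧ e ≤ th G x s} := ⟨_, rfl⟩
  rw [← hS]
  have hSm : MeasurableSet S := by
    rw [hS]
    have h1 : Continuous fun x => th G x s := by
      unfold th
      exact (hcont s).div_const s
    exact (measurableSet_ball).inter (measurableSet_le measurable_const h1.measurable)
  have h1 : ∀ x ∈ S, ENNReal.ofReal (e * s) ≤ mu G (ball x s) := by
    intro x hx
    rw [hS] at hx
    have h2 : e ≤ (mu G).real (ball x s) / s := hx.2
    rw [le_div_iff₀ hs] at h2
    rw [← ENNReal.ofReal_toReal (measure_ne_top (mu G) (ball x s))]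
    exact ENNReal.ofReal_le_ofReal h2
  have h2 : ENNReal.ofReal (e * s) * volume S ≤ ∫⁻ x in S, mu G (ball x s) := by
    rw [← setLIntegral_const]
    exact setLIntegral_mono' hSm h1
  have hmeas : MeasurableSet {p : V × V | dist p.2 p.1 < s} :=
    (isOpen_lt (continuous_snd.dist continuous_fst) continuous_const).measurableSet
  have h3 : ∫⁻ x in S, mu G (ball x s) =
      ∫⁻ y, (volume.restrict S) {x | dist y x < s} ∂(mu G) := by
    have e1 : ∀ x : V, mu G (ball x s) = mu G (Prod.mk x ⁻¹' {p : V × V | dist p.2 p.1 < s}) :=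
      fun x => rfl
    have e2 : ∀ y : V, (volume.restrict S) {x | dist y x < s} =
        (volume.restrict S) ((fun x => (x, y)) ⁻¹' {p : V × V | dist p.2 p.1 < s}) := fun y => rfl
    simp only [e1, e2]
    rw [← Measure.prod_apply hmeas, ← Measure.prod_apply_symm hmeas]
  have h4 : ∫⁻ y, (volume.restrict S) {x | dist y x < s} ∂(mu G) ≤
      ∫⁻ y, (ball c (r + s)).indicator (fun _ => ENNReal.ofReal (8 * s ^ 3)) y ∂(mu G) := by
    refine lintegral_mono fun y => ?_
    by_cases hy : y ∈ ball c (r + s)
    · rw [indicator_of_mem hy]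
      refine (Measure.restrict_apply_le _ _).trans ?_
      have e3 : {x : V | dist y x < s} = ball y s := by
        ext x
        rw [mem_ball, dist_comm]
        rfl
      rw [e3]
      exact vol_ball y hs
    · rw [indicator_of_notMem hy]
      refine le_of_eq ?_
      rw [Measure.restrict_apply' hSm]
      have e4 : {x : V | dist y x < s} ∩ S = ∅ := by
        rw [eq_empty_iff_forall_notMem]
        rintro x ⟨hx1, hx2⟩
        rw [hS] at hx2
        refine hy (mem_ball.mpr ?_)
        have h5 : dist x c < r := mem_ball.mp hx2.1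
        have h6 : dist y x < s := hx1
        have := dist_triangle y x c
        linarith
      rw [e4, measure_empty]
  have h5 : ∫⁻ y, (ball c (r + s)).indicator (fun _ => ENNReal.ofReal (8 * s ^ 3)) y ∂(mu G) ≤
      ENNReal.ofReal (8 * s ^ 3 * M) := by
    rw [lintegral_indicator measurableSet_ball, setLIntegral_const,
      ENNReal.ofReal_mul (show (0 : ℝ) ≤ 8 * s ^ 3 by positivity)]
    have h9 : mu G (ball c (r + s)) ≤ ENNReal.ofReal M := by
      rw [← ENNReal.ofReal_toReal (measure_ne_top (mu G) (ball c (r + s)))]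
      exact ENNReal.ofReal_le_ofReal hM
    exact mul_le_mul' le_rfl h9
  have h6 : ENNReal.ofReal (e * s) * volume S ≤ ENNReal.ofReal (8 * s ^ 3 * M) :=
    h2.trans (h3.le.trans (h4.trans h5))
  have h7 : ENNReal.ofReal (8 * s ^ 3 * M) =
      ENNReal.ofReal (e * s) * ENNReal.ofReal (8 * M / e * s ^ 2) := by
    rw [← ENNReal.ofReal_mul (by positivity)]
    congr 1
    field_simp
  rw [h7] at h6
  have h8 : ENNReal.ofReal (e * s) ≠ 0 := by
    rw [Ne, ENNReal.ofReal_eq_zero, not_le]
    positivity
  exact (ENNReal.mul_le_mul_iff_right h8 ENNReal.ofReal_ne_top).mp h6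

end Pool.Agent.H34.D3
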